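import Pool.Agent.H73.KG.Stmts2

/-!
# Project KG, module THA: third moments of uniformly log-concave measures (assembly)
-/

set_option autoImplicit false

open MeasureTheory Set Filter Topology
open scoped ContDiff

namespace Pool.Agent.H87.KG

open Pool.Agent.H84 Pool.Agent.H84.Sym Pool.Agent.H84.Sym.P2x Pool.Agent.H19.KL Pool.Agent.H73.KG

/-- the sum of the sizes of the smaller blocks -/
theorem sum_blocks (g a : ℕ) (hg : 1 ≤ g) (j : ℕ) :
    1 + ∑ i ∈ Finset.range j, (2:ℝ) ^ (g + a + i * g) ≤ 2 ^ (a + j * g + 1) := by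
  induction j with
  | zero =>
    simp only [Finset.range_zero, Finset.sum_empty, add_zero, zero_mul]
    exact one_le_pow₀ (by norm_num)
  | succ k ih =>
    rw [Finset.sum_range_succ, ← add_assoc]
    have h1 : (2:ℝ) ^ (a + k * g + 1) ≤ 2 ^ (g + a + k * g) :=
      pow_le_pow_right₀ (by norm_num) (by omega)
    have h2 : (2:ℝ) ^ (a + (k + 1) * g + 1) = 2 * 2 ^ (g + a + k * g) := by
      rw [← pow_succ']
      congr 1
      ring
    rw [h2]
    linarith

/-- blocks are disjoint -/
theorem block_idx (g a : ℕ) (hg : 1 ≤ g) (j i j' i' : ℕ) (hi : i < 2 ^ (g + a + j * g))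
    (hi' : i' < 2 ^ (g + a + j' * g))
    (h : 2 ^ (g + a + j * g) - 1 + i = 2 ^ (g + a + j' * g) - 1 + i') : j = j' ∧ i = i' := by
  have key : ∀ x y : ℕ, ∀ u v : ℕ, x < y → u < 2 ^ (g + a + x * g) →
      2 ^ (g + a + x * g) - 1 + u ≠ 2 ^ (g + a + y * g) - 1 + v := by
    intro x y u v hxy hu he
    have h1 : 2 ^ (g + a + x * g + 1) ≤ 2 ^ (g + a + y * g) := by
      apply Nat.pow_le_pow_right (by norm_num)
      have : (x + 1) * g ≤ y * g := Nat.mul_le_mul_right g hxy
      have h3 : (x + 1) * g = x * g + g := by ring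
      omega
    have h2 : 2 ^ (g + a + x * g + 1) = 2 ^ (g + a + x * g) + 2 ^ (g + a + x * g) := by
      rw [pow_succ]; ring
    have h3 : 0 < 2 ^ (g + a + x * g) := by positivity
    omega
  rcases lt_trichotomy j j' with hj | hj | hj
  · exact absurd h (key j j' i i' hj hi)
  · subst hj
    exact ⟨rfl, by omega⟩
  · exact absurd h.symm (key j' j i' i hj hi')

/-- the sum over a block in terms of the cut block -/
theorem BB_eq (m : ℕ → ℝ) (N : ℕ) (hm : ∀ i, N ≤ i → m i = 0) (l : ℕ) :
    BB m l = ∑ i ∈ Finset.range (min (2 ^ l) (N - (2 ^ l - 1))), m (2 ^ l - 1 + i) ^ 2 := by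
  have h0 : 2 ^ (l + 1) = 2 ^ l + 2 ^ l := by rw [pow_succ]; ring
  have hp : 0 < 2 ^ l := by positivity
  rw [BB, Finset.sum_Ico_eq_sum_range]
  have h1 : 2 ^ (l + 1) - 1 - (2 ^ l - 1) = 2 ^ l := by omega
  rw [h1]
  symm
  apply Finset.sum_subset
  · intro x hx
    rw [Finset.mem_range] at hx ⊢
    omega
  · intro x hx hx'
    rw [Finset.mem_range] at hx hx'
    have : N ≤ 2 ^ l - 1 + x := by omega
    rw [hm _ this]
    norm_num

theorem tha_thm
    (hCVL : ∀ (E : Type) [NormedAddCommGroup E] [InnerProductSpace ℝ E]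
      [FiniteDimensional ℝ E] [MeasurableSpace E] [BorelSpace E], CVLStmt E)
    (hSPC : ∀ (E : Type) [NormedAddCommGroup E] [InnerProductSpace ℝ E]
      [FiniteDimensional ℝ E] [MeasurableSpace E] [BorelSpace E], SPCStmt E)
    (hT1M : T1MStmt) (hROW : ROWStmt) (hCHF : CHFStmt) (hNUM : NUMStmt) : THAStmt := by
  obtain ⟨CT, hCT, hT⟩ := hT1M
  obtain ⟨CR, hCR, hR⟩ := hROW
  obtain ⟨CF, hCF, hF⟩ := hCHF
  set CN : ℝ := CT + CF with hCN
  have hCN1 : 1 ≤ CN := by linarith
  refine ⟨40 * CN ^ 2 + 3 * CR + 256, by nlinarith [sq_nonneg CN], ?_⟩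
  intro E _ _ _ _ _ τ g hτ hτ1 hg hbig
  apply hCVL E τ _ hτ hτ1
  intro U hU hc θ hθ ι _ b
  obtain ⟨e, m, h1, h2, h3, h4, h5⟩ := hSPC E U (τ / 2) hU.1 θ hθ
  set N := Module.finrank ℝ E - 1 with hN
  rw [h5 ι b]
  have hCpos : (0:ℝ) ≤ 40 * CN ^ 2 + 3 * CR := by nlinarith [sq_nonneg CN]
  have hbig' : (256 : ℝ) * (1 + Nat.log 2 (Module.finrank ℝ E + 1)) ≤ 2 ^ g * τ ^ 7 := by
    refine le_trans ?_ hbig
    apply mul_le_mul_of_nonneg_right
    · linarith
    · positivity
  have hlog0 : (0:ℝ) ≤ Nat.log 2 (Module.finrank ℝ E + 1) := by positivity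
  have h256 : (256 : ℝ) ≤ 2 ^ g * τ ^ 7 := by nlinarith
  -- orthonormality of subfamilies
  have hinner : ∀ i < N, ∀ j < N, inner ℝ (e i) (e j) = (if i = j then (1:ℝ) else 0) :=
    fun i hi j hj => (h1 i hi j hj).1
  have ht3 : ∀ i < N, t3 U θ (e i) (e i) = m i := by
    intro i hi
    have := (h1 i hi i hi).2
    rwa [if_pos rfl] at this
  -- the row
  obtain ⟨hr1, hr2⟩ := hR E U (τ / 2) hU hc θ hθ
  have hortho : ∀ (s d : ℕ), s + d ≤ N → Orthonormal ℝ (fun i : Fin d => e (s + i)) := by
    intro s d hsd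
    rw [orthonormal_iff_ite]
    intro i j
    have hi : s + (i:ℕ) < N := by have := i.2; omega
    have hj : s + (j:ℕ) < N := by have := j.2; omega
    rw [hinner _ hi _ hj]
    by_cases hij : i = j
    · subst hij; simp
    · rw [if_neg hij, if_neg]
      intro h
      apply hij
      apply Fin.ext
      omega
  have hrow : ∑ i ∈ Finset.range N, (t3 U θ θ (e i)) ^ 2 ≤ CR := by
    have := hr2 (Fin N) (fun i : Fin N => e (0 + i)) (hortho 0 N (by omega))
      (fun i => by
        have := h2 (0 + (i:ℕ)) (by have := i.2; omega)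
        exact this)
    simp only [zero_add] at this
    rwa [Fin.sum_univ_eq_sum_range (fun i => (t3 U θ θ (e i)) ^ 2) N] at this
  -- the main part
  have hmain : ∑ i ∈ Finset.range N, m i ^ 2 ≤ 40 * CN ^ 2 * g := by
    apply hNUM N g CN (τ / 2) m hg hCN1 (by linarith) (by linarith) h3 h4
    · intro l
      set d := min (2 ^ l) (N - (2 ^ l - 1)) with hd
      have hp : 0 < 2 ^ l := by positivity
      have hdN : 0 < d → 2 ^ l - 1 + d ≤ N := by omega
      rw [BB_eq m N h3 l, ← hd]
      rcases Nat.eq_zero_or_pos d with hd0 | hd0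
      · rw [hd0]
        simp only [Finset.range_zero, Finset.sum_empty]
        positivity
      · have hh := hT E U (τ / 2) hU hc (Fin d) (fun i : Fin d => e (2 ^ l - 1 + i))
          (hortho _ _ (hdN hd0)) (fun i => m (2 ^ l - 1 + i)) |m (2 ^ l - 1)|
          (fun i => h4 _ _ (by omega)) (abs_nonneg _) θ hθ
        have hs : ∑ i : Fin d, m (2 ^ l - 1 + i) * t3 U θ (e (2 ^ l - 1 + i)) (e (2 ^ l - 1 + i)) =
            ∑ i ∈ Finset.range d, m (2 ^ l - 1 + i) ^ 2 := by
          rw [← Fin.sum_univ_eq_sum_range (fun i => m (2 ^ l - 1 + i) ^ 2) d]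
          apply Finset.sum_congr rfl
          intro i _
          rw [ht3 _ (by have := i.2; have := hdN hd0; omega)]
          ring
        rw [hs] at hh
        refine le_trans (le_abs_self _) (le_trans hh ?_)
        rw [Fintype.card_fin]
        have hq : Real.sqrt ((d:ℝ) + 1) ≤ Real.sqrt (2 ^ l + 1) := by
          apply Real.sqrt_le_sqrt
          have : (d:ℝ) ≤ 2 ^ l := by exact_mod_cast (min_le_left _ _)
          linarith
        apply mul_le_mul _ hq (Real.sqrt_nonneg _) (by positivity)
        apply mul_le_mul_of_nonneg_right _ (abs_nonneg _)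
        linarith
    · intro a ha r
      set L : ℕ → ℕ := fun j => g + a + j * g with hL
      set d : ℕ → ℕ := fun j => min (2 ^ L j) (N - (2 ^ L j - 1)) with hd
      have hp : ∀ j, 0 < 2 ^ L j := fun j => by positivity
      have hdN : ∀ j i, i < d j → 2 ^ L j - 1 + i < N := by
        intro j i hi
        simp only [hd] at hi
        have := hp j
        omega
      have hdL : ∀ j, (d j : ℝ) ≤ 2 ^ L j := by
        intro j
        exact_mod_cast (min_le_left _ _)
      have hsumd : ∀ j, 1 + ∑ i ∈ Finset.range j, (d i : ℝ) ≤ 2 ^ (a + j * g + 1) := by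
        intro j
        refine le_trans ?_ (sum_blocks g a hg j)
        have := Finset.sum_le_sum (s := Finset.range j) (fun i _ => hdL i)
        simp only [hL] at this
        linarith
      have hblk : Blk (τ / 2) r θ d (fun j i => e (2 ^ L j - 1 + i))
          (fun j i => m (2 ^ L j - 1 + i)) (fun j => |m (2 ^ L j - 1)|) (fun j => 2 ^ L j) := by
        refine ⟨hθ, ?_, ?_, ?_, ?_, ?_, ?_⟩
        · intro j _ i hi
          exact h2 _ (hdN j i hi)
        · intro j _ i hi j' _ i' hi'
          rw [hinner _ (hdN j i hi) _ (hdN j' i' hi')]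
          by_cases hh : j = j' ∧ i = i'
          · rw [if_pos hh, if_pos]
            rw [hh.1, hh.2]
          · rw [if_neg hh, if_neg]
            intro hc'
            apply hh
            apply block_idx g a hg j i j' i' _ _ hc'
            · exact lt_of_lt_of_le hi (min_le_left _ _)
            · exact lt_of_lt_of_le hi' (min_le_left _ _)
        · intro j _ i _
          exact h4 _ _ (by omega)
        · intro j _
          exact abs_nonneg _
        · intro j _
          exact hdL j
        · intro j _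
          refine le_trans (hsumd j) ?_
          have e1 : (2:ℝ) ^ L j * (τ / 2) ^ 7 = 2 ^ (a + j * g + 1) * (2 ^ g * τ ^ 7 / 256) := by
            simp only [hL]
            rw [show g + a + j * g = (a + j * g) + g by ring, pow_add 2 (a + j * g) g,
              pow_add 2 (a + j * g) 1]
            ring
          rw [e1]
          have : (1:ℝ) ≤ 2 ^ g * τ ^ 7 / 256 := by linarith
          have h2p : (0:ℝ) < 2 ^ (a + j * g + 1) := by positivity
          nlinarith
      have hh := hF E U (τ / 2) hU (by linarith) hc r θ d (fun j i => e (2 ^ L j - 1 + i))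
        (fun j i => m (2 ^ L j - 1 + i)) (fun j => |m (2 ^ L j - 1)|) (fun j => 2 ^ L j) hblk
      have hs : ∑ j ∈ Finset.range r, ∑ i ∈ Finset.range (d j), m (2 ^ L j - 1 + i) *
          t3 U θ (e (2 ^ L j - 1 + i)) (e (2 ^ L j - 1 + i)) =
          ∑ j ∈ Finset.range r, BB m (L j) := by
        apply Finset.sum_congr rfl
        intro j _
        rw [BB_eq m N h3 (L j)]
        apply Finset.sum_congr rfl
        intro i hi
        rw [Finset.mem_range] at hi
        rw [ht3 _ (hdN j i hi)]
        ring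
      rw [hs] at hh
      refine le_trans hh ?_
      apply add_le_add
      · apply mul_le_mul_of_nonneg_right _ (Real.sqrt_nonneg _)
        linarith
      · apply mul_le_mul _ _ _ (by linarith)
        · linarith
        · apply Finset.sum_le_sum
          intro j _
          have h6 : Real.sqrt (1 + ∑ i ∈ Finset.range j, (d i : ℝ)) ≤
              Real.sqrt (2 ^ (a + j * g + 2)) := by
            apply Real.sqrt_le_sqrt
            refine le_trans (hsumd j) ?_
            exact pow_le_pow_right₀ (by norm_num) (by omega)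
          have h7 : (0:ℝ) < (τ / 2) ^ 2 := by positivity
          apply div_le_div_of_nonneg_right _ h7.le
          exact mul_le_mul_of_nonneg_left h6 (abs_nonneg _)
        · apply Finset.sum_nonneg
          intro j _
          positivity
    · have h8 : (Nat.log 2 (N + 1) : ℝ) ≤ Nat.log 2 (Module.finrank ℝ E + 1) := by
        exact_mod_cast Nat.log_mono_right (by omega)
      have h9 : τ ^ 7 ≤ τ ^ 4 := pow_le_pow_of_le_one hτ.le hτ1 (by norm_num)
      have h10 : (2:ℝ) ^ g * τ ^ 7 ≤ 2 ^ g * τ ^ 4 :=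
        mul_le_mul_of_nonneg_left h9 (by positivity)
      have h11 : (2:ℝ) ^ g * (τ / 2) ^ 4 = 2 ^ g * τ ^ 4 / 16 := by ring
      rw [h11]
      linarith
  have hg1 : (1:ℝ) ≤ g := by exact_mod_cast hg
  have hfin : 3 * CR ≤ 3 * CR * g := by nlinarith
  nlinarith
end Pool.Agent.H87.KG
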